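import Mathlib

/-!
# Penney's game: Conway's formula
-/

set_option autoImplicit false

namespace Pool.Agent.R660.PA

open MeasureTheory Set Filter Topology

/-- a fair coin -/
noncomputable def coin : Measure Bool := (PMF.uniformOfFintype Bool).toMeasure

instance : IsProbabilityMeasure coin := by unfold coin; infer_instance

/-- the law of an infinite sequence of independent tosses of a fair coin -/
noncomputable def tosses : Measure (ℕ → Bool) := Measure.infinitePi fun _ : ℕ => coin

instance : IsProbabilityMeasure tosses := by unfold tosses; infer_instance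

theorem coin_singleton (b : Bool) : coin {b} = 2⁻¹ := by
  unfold coin
  rw [PMF.toMeasure_apply_singleton _ _ (measurableSet_singleton _)]
  simp

theorem coin_map_not : coin.map not = coin := by
  refine Measure.ext_of_singleton fun b => ?_
  rw [Measure.map_apply (by fun_prop) (measurableSet_singleton _)]
  have : not ⁻¹' {b} = {!b} := by
    ext c; cases b <;> cases c <;> simp
  rw [this, coin_singleton, coin_singleton]

/-- flip one toss -/
def flip (m : ℕ) (ω : ℕ → Bool) : ℕ → Bool := fun i => if i = m then !(ω i) else ω i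

theorem flip_mp (m : ℕ) : MeasurePreserving (flip m) tosses tosses := by
  have h : ∀ i : ℕ, Measurable (if i = m then not else (id : Bool → Bool)) := by
    intro i; fun_prop
  have e : flip m = fun ω i => (if i = m then not else (id : Bool → Bool)) (ω i) := by
    funext ω i
    unfold flip
    split_ifs <;> rfl
  refine ⟨?_, ?_⟩
  · rw [e]; fun_prop
  · rw [e]
    unfold tosses
    rw [Measure.infinitePi_map_pi (fun _ : ℕ => coin) h]
    congr 1
    funext i
    split_ifs
    · exact coin_map_not
    · exact Measure.map_id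

/-- the event `E` depends on the first `m` tosses only -/
def Dep (m : ℕ) (E : Set (ℕ → Bool)) : Prop :=
  ∀ ω ω' : ℕ → Bool, (∀ i < m, ω i = ω' i) → ω ∈ E → ω' ∈ E

theorem Dep.mono {m m' : ℕ} (h : m ≤ m') {E : Set (ℕ → Bool)} (hE : Dep m E) : Dep m' E :=
  fun ω ω' h' => hE ω ω' fun i hi => h' i (by omega)

theorem Dep.inter {m : ℕ} {E F : Set (ℕ → Bool)} (hE : Dep m E) (hF : Dep m F) : Dep m (E ∩ F) :=
  fun ω ω' h' hh => ⟨hE ω ω' h' hh.1, hF ω ω' h' hh.2⟩

theorem Dep.meas {m : ℕ} {E : Set (ℕ → Bool)} (hE : Dep m E) : MeasurableSet E := by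
  let r : (ℕ → Bool) → (Fin m → Bool) := fun ω i => ω i
  have hr : Measurable r := by fun_prop
  have : E = r ⁻¹' (r '' E) := by
    ext ω
    constructor
    · intro h; exact ⟨ω, h, rfl⟩
    · rintro ⟨ω', h, h'⟩
      refine hE ω' ω (fun i hi => ?_) h
      exact congrFun h' ⟨i, hi⟩
  rw [this]
  exact hr (Set.toFinite _).measurableSet

theorem Dep.half {m : ℕ} {E : Set (ℕ → Bool)} (hE : Dep m E) (b : Bool) :
    tosses.real (E ∩ {ω | ω m = b}) = tosses.real E / 2 := by
  have hm : ∀ b : Bool, MeasurableSet {ω : ℕ → Bool | ω m = b} := by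
    intro b
    exact measurableSet_eq_fun (measurable_pi_apply m) measurable_const
  have hflip : ∀ b : Bool, flip m ⁻¹' (E ∩ {ω | ω m = b}) = E ∩ {ω | ω m = !b} := by
    intro b
    ext ω
    have h1 : flip m ω ∈ E ↔ ω ∈ E := by
      constructor
      · exact hE _ _ fun i hi => by unfold flip; rw [if_neg (by omega)]
      · exact hE _ _ fun i hi => by unfold flip; rw [if_neg (by omega)]
    have h2 : flip m ω m = b ↔ ω m = !b := by
      unfold flip
      rw [if_pos rfl]
      cases b <;> cases ω m <;> simp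
    simp only [mem_preimage, mem_inter_iff, mem_ofPred_eq, h1, h2]
  have key : ∀ b : Bool, tosses.real (E ∩ {ω | ω m = !b}) = tosses.real (E ∩ {ω | ω m = b}) := by
    intro b
    rw [← hflip, measureReal_def, measureReal_def,
      (flip_mp m).measure_preimage (hE.meas.inter (hm b)).nullMeasurableSet]
  have hsum : tosses.real (E ∩ {ω | ω m = b}) + tosses.real (E ∩ {ω | ω m = !b}) =
      tosses.real E := by
    rw [← measureReal_union]
    · congr 1
      ext ω
      simp only [mem_union, mem_inter_iff, mem_ofPred_eq]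
      cases b <;> cases ω m <;> simp
    · rw [Set.disjoint_left]
      rintro ω ⟨-, h1⟩ ⟨-, h2⟩
      simp only [mem_ofPred_eq] at h1 h2
      rw [h1] at h2
      cases b <;> simp at h2
    · exact hE.meas.inter (hm _)
  rw [key b] at hsum
  linarith

theorem dep_block_aux {m k : ℕ} {E : Set (ℕ → Bool)} (hE : Dep m E) (c : ℕ → Bool) :
    Dep (m + k) (E ∩ {ω | ∀ i < k, ω (m + i) = c i}) := by
  refine (hE.mono (by omega)).inter ?_
  intro ω ω' h hω i hi
  rw [← h (m + i) (by omega)]
  exact hω i hi

theorem Dep.block {m : ℕ} {E : Set (ℕ → Bool)} (hE : Dep m E) (c : ℕ → Bool) (k : ℕ) :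
    tosses.real (E ∩ {ω | ∀ i < k, ω (m + i) = c i}) = tosses.real E / 2 ^ k := by
  induction k with
  | zero => simp
  | succ k ih =>
    have : E ∩ {ω | ∀ i < k + 1, ω (m + i) = c i} =
        (E ∩ {ω | ∀ i < k, ω (m + i) = c i}) ∩ {ω | ω (m + k) = c k} := by
      ext ω
      simp only [mem_inter_iff, mem_ofPred_eq]
      constructor
      · rintro ⟨h1, h2⟩
        exact ⟨⟨h1, fun i hi => h2 i (by omega)⟩, h2 k (by omega)⟩
      · rintro ⟨⟨h1, h2⟩, h3⟩
        refine ⟨h1, fun i hi => ?_⟩
        rcases Nat.lt_succ_iff_lt_or_eq.1 hi with h | h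
        · exact h2 i h
        · rw [h]; exact h3
    rw [this, (dep_block_aux hE c).half, ih, pow_succ]
    ring

/-! ### The game -/

/-- the string `X 0, ..., X (n - 1)` occurs at the position `t` -/
def occ (n : ℕ) (X ω : ℕ → Bool) (t : ℕ) : Prop := ∀ i < n, ω (t + i) = X i

/-- the last `k` letters of `X` are the first `k` letters of `Y` -/
def lf (n k : ℕ) (X Y : ℕ → Bool) : Prop := ∀ i < k, X (n - k + i) = Y i

open Classical in
/-- the leading number -/
noncomputable def con (n : ℕ) (X Y : ℕ → Bool) : ℝ :=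
  ∑ k ∈ Finset.range n, if lf n (k + 1) X Y then (2 : ℝ) ^ k else 0

variable (n : ℕ) (A B : ℕ → Bool)

/-- no occurrence of `A`, `B` in the first `t` tosses -/
def Nev (t : ℕ) : Set (ℕ → Bool) := {ω | ∀ s, s + n ≤ t → ¬ occ n A ω s ∧ ¬ occ n B ω s}

/-- the first occurrence of a string out of `A`, `B` ends at time `m`, and `X` occurs then -/
def Eev (X : ℕ → Bool) (m : ℕ) : Set (ℕ → Bool) :=
  {ω | n ≤ m ∧ occ n X ω (m - n) ∧ ∀ s, s + n < m → ¬ occ n A ω s ∧ ¬ occ n B ω s}

variable {n A B}

theorem Nev_dep (t : ℕ) : Dep t (Nev n A B t) := by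
  intro ω ω' h hω s hs
  have h1 := hω s hs
  refine ⟨fun hh => h1.1 fun i hi => ?_, fun hh => h1.2 fun i hi => ?_⟩
  · rw [h (s + i) (by omega)]; exact hh i hi
  · rw [h (s + i) (by omega)]; exact hh i hi

theorem Eev_dep (X : ℕ → Bool) (m : ℕ) : Dep m (Eev n A B X m) := by
  rintro ω ω' h ⟨h1, h2, h3⟩
  refine ⟨h1, fun i hi => ?_, fun s hs => ?_⟩
  · rw [← h (m - n + i) (by omega)]; exact h2 i hi
  have h1 := h3 s hs
  refine ⟨fun hh => h1.1 fun i hi => ?_, fun hh => h1.2 fun i hi => ?_⟩
  · rw [h (s + i) (by omega)]; exact hh i hi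
  · rw [h (s + i) (by omega)]; exact hh i hi

theorem Eev_disj {X X' : ℕ → Bool} (hX : X = A ∨ X = B) {m m' : ℕ} (hm : m < m') :
    Disjoint (Eev n A B X m) (Eev n A B X' m') := by
  rw [Set.disjoint_left]
  rintro ω ⟨h1, h2, -⟩ ⟨h1', -, h3'⟩
  have := h3' (m - n) (by omega)
  rcases hX with rfl | rfl
  · exact this.1 h2
  · exact this.2 h2

theorem Eev_disj' (hAB : ∃ i < n, A i ≠ B i) (m : ℕ) :
    Disjoint (Eev n A B A m) (Eev n A B B m) := by
  rw [Set.disjoint_left]
  rintro ω ⟨h1, h2, -⟩ ⟨h1', h2', -⟩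
  obtain ⟨i, hi, h⟩ := hAB
  exact h ((h2 i hi).symm.trans (h2' i hi))

theorem Eev_zero (X : ℕ → Bool) {m : ℕ} (hm : m < n) : Eev n A B X m = ∅ := by
  ext ω
  simp only [Eev, mem_ofPred_eq, mem_empty_iff_false, iff_false, not_and]
  intro h; omega

/-- telescoping -/
theorem Nev_succ (hAB : ∃ i < n, A i ≠ B i) (t : ℕ) : tosses.real (Nev n A B t) =
    tosses.real (Nev n A B (t + 1)) + (tosses.real (Eev n A B A (t + 1)) +
      tosses.real (Eev n A B B (t + 1))) := by
  rw [← measureReal_union (Eev_disj' hAB _) (Eev_dep _ _).meas, ← measureReal_union]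
  · congr 1
    ext ω
    constructor
    · intro h
      by_cases h1 : n ≤ t + 1
      · by_cases hA : occ n A ω (t + 1 - n)
        · exact Or.inr (Or.inl ⟨h1, hA, fun s hs => h s (by omega)⟩)
        · by_cases hB : occ n B ω (t + 1 - n)
          · exact Or.inr (Or.inr ⟨h1, hB, fun s hs => h s (by omega)⟩)
          · left
            intro s hs
            by_cases h2 : s + n ≤ t
            · exact h s h2
            · have : s = t + 1 - n := by omega
              rw [this]; exact ⟨hA, hB⟩
      · left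
        intro s hs; omega
    · rintro (h | h | h)
      · intro s hs; exact h s (by omega)
      · intro s hs; exact h.2.2 s (by omega)
      · intro s hs; exact h.2.2 s (by omega)
  · rw [Set.disjoint_left]
    rintro ω h (h' | h')
    · exact (h (t + 1 - n) (by have := h'.1; omega)).1 h'.2.1
    · exact (h (t + 1 - n) (by have := h'.1; omega)).2 h'.2.1
  · exact (Eev_dep _ _).meas.union (Eev_dep _ _).meas

open Classical in
theorem piece {X X0 : ℕ → Bool} (t j : ℕ) (hj : j < n) :
    2 ^ n * tosses.real (Eev n A B X (t + (j + 1)) ∩ {ω | ∀ i < n, ω (t + i) = X0 i}) =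
      if lf n (j + 1) X X0 then 2 ^ (j + 1) * tosses.real (Eev n A B X (t + (j + 1))) else 0 := by
  split_ifs with h
  · have e : Eev n A B X (t + (j + 1)) ∩ {ω | ∀ i < n, ω (t + i) = X0 i} =
        Eev n A B X (t + (j + 1)) ∩
          {ω | ∀ i < n - (j + 1), ω (t + (j + 1) + i) = (fun i => X0 (j + 1 + i)) i} := by
      ext ω
      simp only [mem_inter_iff, mem_ofPred_eq]
      refine and_congr_right fun hω => ⟨fun h1 i hi => ?_, fun h1 i hi => ?_⟩
      · rw [add_assoc]; exact h1 _ (by omega)
      · by_cases hij : i < j + 1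
        · rw [← h i hij, ← hω.2.1 (n - (j + 1) + i) (by omega)]
          congr 1
          have := hω.1
          omega
        · have := h1 (i - (j + 1)) (by omega)
          rw [show t + (j + 1) + (i - (j + 1)) = t + i by omega,
            show j + 1 + (i - (j + 1)) = i by omega] at this
          exact this
    rw [e, (Eev_dep _ _).block]
    have h2 : (2 : ℝ) ^ n = 2 ^ (j + 1) * 2 ^ (n - (j + 1)) := by
      rw [← pow_add]; congr 1; omega
    rw [h2]
    field_simp
  · have e : Eev n A B X (t + (j + 1)) ∩ {ω | ∀ i < n, ω (t + i) = X0 i} = ∅ := by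
      ext ω
      simp only [mem_inter_iff, mem_ofPred_eq, mem_empty_iff_false, iff_false, not_and]
      intro hω h1
      apply h
      intro i hi
      rw [← h1 i (by omega), ← hω.2.1 (n - (j + 1) + i) (by omega)]
      congr 1
      have := hω.1
      omega
    rw [e]; simp

open Classical in
theorem key_identity (hn : 1 ≤ n) (hAB : ∃ i < n, A i ≠ B i) {X0 : ℕ → Bool}
    (hX0 : X0 = A ∨ X0 = B) (t : ℕ) : tosses.real (Nev n A B t) =
    ∑ j ∈ Finset.range n,
      ((if lf n (j + 1) A X0 then 2 ^ (j + 1) * tosses.real (Eev n A B A (t + (j + 1))) else 0) +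
      (if lf n (j + 1) B X0 then 2 ^ (j + 1) * tosses.real (Eev n A B B (t + (j + 1))) else 0)) := by
  have h1 : tosses.real (Nev n A B t ∩ {ω | ∀ i < n, ω (t + i) = X0 i}) =
      tosses.real (Nev n A B t) / 2 ^ n := (Nev_dep t).block X0 n
  have h2 : Nev n A B t ∩ {ω | ∀ i < n, ω (t + i) = X0 i} = ⋃ j ∈ Finset.range n,
      ((Eev n A B A (t + (j + 1)) ∪ Eev n A B B (t + (j + 1))) ∩
        {ω | ∀ i < n, ω (t + i) = X0 i}) := by
    ext ω
    simp only [mem_inter_iff, mem_iUnion, Finset.mem_range, exists_prop, mem_union]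
    constructor
    · rintro ⟨hN, hX⟩
      -- the first end time
      have hex : ∃ m, n ≤ m ∧ (occ n A ω (m - n) ∨ occ n B ω (m - n)) := by
        refine ⟨t + n, by omega, ?_⟩
        rw [Nat.add_sub_cancel]
        rcases hX0 with h | h
        · left; rw [← h]; exact hX
        · right; rw [← h]; exact hX
      obtain ⟨hm1, hm2⟩ := Nat.find_spec hex
      set m := Nat.find hex with hm
      have hmle : m ≤ t + n := by
        rw [hm]
        apply Nat.find_min' hex
        refine ⟨by omega, ?_⟩
        rw [Nat.add_sub_cancel]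
        rcases hX0 with h | h
        · left; rw [← h]; exact hX
        · right; rw [← h]; exact hX
      have hmgt : t < m := by
        by_contra hcon
        have := hN (m - n) (by omega)
        rcases hm2 with h | h
        · exact this.1 h
        · exact this.2 h
      have hmin : ∀ s, s + n < m → ¬ occ n A ω s ∧ ¬ occ n B ω s := by
        intro s hs
        have := Nat.find_min hex (m := s + n) (by rw [← hm]; exact hs)
        rw [Nat.add_sub_cancel] at this
        push Not at this
        exact this (by omega)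
      refine ⟨m - t - 1, by omega, ?_, hX⟩
      rw [show t + (m - t - 1 + 1) = m by omega]
      rcases hm2 with h | h
      · exact Or.inl ⟨hm1, h, hmin⟩
      · exact Or.inr ⟨hm1, h, hmin⟩
    · rintro ⟨j, hj, h, hX⟩
      refine ⟨fun s hs => ?_, hX⟩
      rcases h with h | h
      · exact h.2.2 s (by omega)
      · exact h.2.2 s (by omega)
  have hblock : MeasurableSet {ω : ℕ → Bool | ∀ i < n, ω (t + i) = X0 i} := by
    have := (dep_block_aux (m := t) (k := n) (E := univ) (fun _ _ _ _ => mem_univ _) X0).meas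
    rwa [univ_inter] at this
  have hmeas : ∀ j, MeasurableSet ((Eev n A B A (t + (j + 1)) ∪ Eev n A B B (t + (j + 1))) ∩
      {ω | ∀ i < n, ω (t + i) = X0 i}) := fun j =>
    ((Eev_dep _ _).meas.union (Eev_dep _ _).meas).inter hblock
  have hdisj : (↑(Finset.range n) : Set ℕ).PairwiseDisjoint
      (fun j => ((Eev n A B A (t + (j + 1)) ∪ Eev n A B B (t + (j + 1))) ∩
        {ω | ∀ i < n, ω (t + i) = X0 i})) := by
    have hlt : ∀ j j' : ℕ, j < j' → Disjoint
        ((Eev n A B A (t + (j + 1)) ∪ Eev n A B B (t + (j + 1))) ∩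
          {ω | ∀ i < n, ω (t + i) = X0 i})
        ((Eev n A B A (t + (j' + 1)) ∪ Eev n A B B (t + (j' + 1))) ∩
          {ω | ∀ i < n, ω (t + i) = X0 i}) := by
      intro j j' hjj
      apply Disjoint.mono inter_subset_left inter_subset_left
      rw [disjoint_union_left, disjoint_union_right, disjoint_union_right]
      exact ⟨⟨Eev_disj (Or.inl rfl) (by omega), Eev_disj (Or.inl rfl) (by omega)⟩,
        ⟨Eev_disj (Or.inr rfl) (by omega), Eev_disj (Or.inr rfl) (by omega)⟩⟩
    intro j _ j' _ hne
    rcases lt_or_gt_of_ne hne with h | h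
    · exact hlt j j' h
    · exact (hlt j' j h).symm
  have h3 : tosses.real (Nev n A B t) = 2 ^ n * tosses.real (Nev n A B t ∩
      {ω | ∀ i < n, ω (t + i) = X0 i}) := by
    rw [h1]; field_simp
  rw [h3, h2, measureReal_biUnion_finset hdisj (fun j _ => hmeas j), Finset.mul_sum]
  refine Finset.sum_congr rfl fun j hj => ?_
  rw [Finset.mem_range] at hj
  rw [union_inter_distrib_right, measureReal_union, mul_add, piece t j hj, piece t j hj]
  · exact (Eev_disj' hAB _).mono inter_subset_left inter_subset_left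
  · exact (Eev_dep _ _).meas.inter hblock

/-- the probability that the first occurrence is that of `X` -/
noncomputable def PX (n : ℕ) (A B X : ℕ → Bool) : ℝ := tosses.real (⋃ m, Eev n A B X m)

theorem hasSum_PX {X : ℕ → Bool} (hX : X = A ∨ X = B) :
    HasSum (fun m => tosses.real (Eev n A B X m)) (PX n A B X) := by
  have hd : Pairwise (Function.onFun Disjoint (Eev n A B X)) := by
    intro m m' hne
    rcases lt_or_gt_of_ne hne with h | h
    · exact Eev_disj hX h
    · exact (Eev_disj hX h).symm
  have h := measure_iUnion (μ := tosses) hd (fun m => (Eev_dep (n := n) (A := A) (B := B) X m).meas)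
  unfold PX
  rw [measureReal_def, h, ENNReal.tsum_toReal_eq (fun _ => measure_ne_top _ _)]
  exact ENNReal.hasSum_toReal (by rw [← h]; exact measure_ne_top _ _)

theorem hasSum_shift {X : ℕ → Bool} (hX : X = A ∨ X = B) {j : ℕ} (hj : j < n) :
    HasSum (fun t => tosses.real (Eev n A B X (t + (j + 1)))) (PX n A B X) := by
  have h := (hasSum_nat_add_iff' (f := fun m => tosses.real (Eev n A B X m)) (j + 1)).2
    (hasSum_PX hX)
  have h0 : ∑ i ∈ Finset.range (j + 1), tosses.real (Eev n A B X i) = 0 := by
    apply Finset.sum_eq_zero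
    intro i hi
    rw [Finset.mem_range] at hi
    rw [Eev_zero X (by omega)]; simp
  rw [h0, sub_zero] at h
  exact h

open Classical in
theorem hasSum_N (hn : 1 ≤ n) (hAB : ∃ i < n, A i ≠ B i) {X0 : ℕ → Bool}
    (hX0 : X0 = A ∨ X0 = B) : HasSum (fun t => tosses.real (Nev n A B t))
    (2 * (PX n A B A * con n A X0 + PX n A B B * con n B X0)) := by
  have h : HasSum (fun t => ∑ j ∈ Finset.range n,
      ((if lf n (j + 1) A X0 then 2 ^ (j + 1) * tosses.real (Eev n A B A (t + (j + 1))) else 0) +
      (if lf n (j + 1) B X0 then 2 ^ (j + 1) * tosses.real (Eev n A B B (t + (j + 1))) else 0)))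
      (∑ j ∈ Finset.range n, ((if lf n (j + 1) A X0 then 2 ^ (j + 1) * PX n A B A else 0) +
        (if lf n (j + 1) B X0 then 2 ^ (j + 1) * PX n A B B else 0))) := by
    apply hasSum_sum
    intro j hj
    rw [Finset.mem_range] at hj
    apply HasSum.add
    · split_ifs
      · exact (hasSum_shift (Or.inl rfl) hj).mul_left _
      · exact hasSum_zero
    · split_ifs
      · exact (hasSum_shift (Or.inr rfl) hj).mul_left _
      · exact hasSum_zero
  have e : (∑ j ∈ Finset.range n, ((if lf n (j + 1) A X0 then 2 ^ (j + 1) * PX n A B A else 0) +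
        (if lf n (j + 1) B X0 then 2 ^ (j + 1) * PX n A B B else 0))) =
      2 * (PX n A B A * con n A X0 + PX n A B B * con n B X0) := by
    unfold con
    rw [Finset.mul_sum, Finset.mul_sum, ← Finset.sum_add_distrib, Finset.mul_sum]
    refine Finset.sum_congr rfl fun j _ => ?_
    split_ifs <;> ring
  rw [e] at h
  refine h.congr_fun ?_ |> fun x => x
  intro t
  exact key_identity hn hAB hX0 t

theorem PX_add (hn : 1 ≤ n) (hAB : ∃ i < n, A i ≠ B i) :
    PX n A B A + PX n A B B = 1 := by
  have hq := (hasSum_N hn hAB (X0 := A) (Or.inl rfl)).summable.tendsto_atTop_zero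
  have h1 : HasSum (fun t => tosses.real (Eev n A B A (t + (0 + 1))) +
      tosses.real (Eev n A B B (t + (0 + 1)))) (PX n A B A + PX n A B B) :=
    (hasSum_shift (Or.inl rfl) (by omega)).add (hasSum_shift (Or.inr rfl) (by omega))
  have h2 : ∀ T : ℕ, ∑ t ∈ Finset.range T, (tosses.real (Eev n A B A (t + (0 + 1))) +
      tosses.real (Eev n A B B (t + (0 + 1)))) = 1 - tosses.real (Nev n A B T) := by
    intro T
    induction T with
    | zero =>
      have : Nev n A B 0 = univ := by
        ext ω
        simp only [Nev, mem_ofPred_eq, mem_univ, iff_true]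
        intro s hs; omega
      rw [this]; simp
    | succ T ih =>
      rw [Finset.sum_range_succ, ih, zero_add]
      have := Nev_succ hAB T
      linarith
  have h3 := h1.tendsto_sum_nat
  simp only [h2] at h3
  have h4 : Tendsto (fun T => 1 - tosses.real (Nev n A B T)) atTop (𝓝 (1 - 0)) :=
    tendsto_const_nhds.sub hq
  rw [sub_zero] at h4
  exact tendsto_nhds_unique h3 h4

theorem con_self (hn : 1 ≤ n) (X : ℕ → Bool) : (2 : ℝ) ^ (n - 1) ≤ con n X X := by
  classical
  unfold con
  have h : lf n (n - 1 + 1) X X := by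
    intro i hi
    rw [show n - (n - 1 + 1) + i = i by omega]
  have := Finset.single_le_sum (f := fun k => if lf n (k + 1) X X then (2 : ℝ) ^ k else 0)
    (s := Finset.range n) (fun k _ => by split_ifs <;> positivity)
    (Finset.mem_range.2 (show n - 1 < n by omega))
  simp only [if_pos h] at this
  exact this

theorem con_nonneg (X Y : ℕ → Bool) : 0 ≤ con n X Y := by
  unfold con
  apply Finset.sum_nonneg
  intro k _
  split_ifs <;> positivity

theorem sum_pow_two (m : ℕ) : ∑ k ∈ Finset.range m, (2 : ℝ) ^ k = 2 ^ m - 1 := by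
  have := geom_sum_eq (x := (2 : ℝ)) (by norm_num) m
  rw [this]; norm_num

theorem con_ne (hn : 1 ≤ n) {X Y : ℕ → Bool} (hXY : ∃ i < n, X i ≠ Y i) :
    con n X Y ≤ 2 ^ (n - 1) - 1 := by
  classical
  unfold con
  obtain ⟨m, rfl⟩ : ∃ m, n = m + 1 := ⟨n - 1, by omega⟩
  rw [Finset.sum_range_succ]
  have h : ¬ lf (m + 1) (m + 1) X Y := by
    intro hh
    obtain ⟨i, hi, hne⟩ := hXY
    apply hne
    have := hh i hi
    rwa [show m + 1 - (m + 1) + i = i by omega] at this
  rw [if_neg h, add_zero, Nat.add_sub_cancel, ← sum_pow_two]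
  apply Finset.sum_le_sum
  intro k _
  split_ifs
  · exact le_rfl
  · positivity

/-- Conway's formula -/
theorem conway (hn : 1 ≤ n) (hAB : ∃ i < n, A i ≠ B i) :
    tosses.real {ω | ∃ t, occ n B ω t ∧ ∀ s ≤ t, ¬ occ n A ω s} =
      (con n A A - con n A B) / ((con n A A - con n A B) + (con n B B - con n B A)) := by
  classical
  have hset : {ω | ∃ t, occ n B ω t ∧ ∀ s ≤ t, ¬ occ n A ω s} = ⋃ m, Eev n A B B m := by
    ext ω
    simp only [mem_ofPred_eq, mem_iUnion]
    constructor
    · rintro ⟨t, h1, h2⟩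
      have hex : ∃ t, occ n B ω t := ⟨t, h1⟩
      have hf := Nat.find_spec hex
      have hle : Nat.find hex ≤ t := Nat.find_min' hex h1
      refine ⟨Nat.find hex + n, by omega, by rw [Nat.add_sub_cancel]; exact hf, fun s hs => ?_⟩
      exact ⟨h2 s (by omega), Nat.find_min hex (by omega)⟩
    · rintro ⟨m, h1, h2, h3⟩
      refine ⟨m - n, h2, fun s hs => ?_⟩
      rcases hs.lt_or_eq with h | h
      · exact (h3 s (by omega)).1
      · rw [h]
        intro hA
        obtain ⟨i, hi, hne⟩ := hAB
        exact hne ((hA i hi).symm.trans (h2 i hi))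
  have hP : tosses.real {ω | ∃ t, occ n B ω t ∧ ∀ s ≤ t, ¬ occ n A ω s} = PX n A B B := by
    rw [hset]; rfl
  rw [hP]
  have e1 := hasSum_N hn hAB (X0 := A) (Or.inl rfl)
  have e2 := hasSum_N hn hAB (X0 := B) (Or.inr rfl)
  have e3 := e1.unique e2
  have e4 := PX_add hn hAB
  have hBA : ∃ i < n, B i ≠ A i := by
    obtain ⟨i, hi, h⟩ := hAB
    exact ⟨i, hi, h.symm⟩
  have p1 := con_self hn A
  have p2 := con_self hn B
  have p3 := con_ne hn hAB
  have p4 := con_ne hn hBA
  rw [eq_div_iff (by linarith)]
  have e5 : PX n A B A = 1 - PX n A B B := by linarith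
  rw [e5] at e3
  linarith

end Pool.Agent.R660.PA
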