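import Pool.Agent.R660.PA.Conway

/-!
# Penney's game against a random player: the bounds
-/

set_option autoImplicit false

namespace Pool.Agent.R660.PA

open MeasureTheory Set Filter Topology

/-- extension of a finite string -/
def ex {n : ℕ} (A : Fin n → Bool) (i : ℕ) : Bool := if h : i < n then A ⟨i, h⟩ else false

theorem ex_ext {n : ℕ} {A A' : Fin n → Bool} (h : ∀ i < n, ex A i = ex A' i) : A = A' := by
  funext ⟨i, hi⟩
  have := h i hi
  simpa [ex, hi] using this

theorem count_le {n : ℕ} (m : ℕ) (S : Finset (Fin n → Bool))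
    (h : ∀ A ∈ S, ∀ A' ∈ S, (∀ i < m, ex A i = ex A' i) → A = A') : S.card ≤ 2 ^ m := by
  have := Finset.card_le_card_of_injOn (s := S) (t := (Finset.univ : Finset (Fin m → Bool)))
    (fun A i => ex A i) (fun _ _ => Finset.mem_coe.2 (Finset.mem_univ _)) (by
      intro A hA A' hA' hh
      exact h A hA A' hA' fun i hi => congrFun hh ⟨i, hi⟩)
  simpa using this

theorem count_le' {n : ℕ} (m : ℕ) (S : Finset (Fin n → Bool))
    (h : ∀ A ∈ S, ∀ A' ∈ S, (∀ i < m, ex A i = ex A' i) → ex A (n - 1) = ex A' (n - 1) → A = A') :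
    S.card ≤ 2 ^ (m + 1) := by
  have := Finset.card_le_card_of_injOn (s := S)
    (t := (Finset.univ : Finset ((Fin m → Bool) × Bool)))
    (fun A => (fun i => ex A i, ex A (n - 1))) (fun _ _ => Finset.mem_coe.2 (Finset.mem_univ _)) (by
      intro A hA A' hA' hh
      simp only [Prod.mk.injEq] at hh
      exact h A hA A' hA' (fun i hi => congrFun hh.1 ⟨i, hi⟩) hh.2)
  rw [pow_succ]
  simpa using this

open Classical in
theorem sum_bound {n M c : ℕ} (Q : ℕ → (Fin n → Bool) → Prop) (hMc : ∀ k < M, k ≤ c)
    (h : ∀ k < M, (Finset.univ.filter (Q k)).card ≤ 2 ^ (c - k)) :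
    ∑ A : Fin n → Bool, ∑ k ∈ Finset.range M, (if Q k A then (2 : ℝ) ^ k else 0) ≤ M * 2 ^ c := by
  rw [Finset.sum_comm]
  calc ∑ k ∈ Finset.range M, ∑ A : Fin n → Bool, (if Q k A then (2 : ℝ) ^ k else 0)
      ≤ ∑ k ∈ Finset.range M, (2 : ℝ) ^ c := by
        apply Finset.sum_le_sum
        intro k hk
        rw [Finset.mem_range] at hk
        rw [← Finset.sum_filter, Finset.sum_const, nsmul_eq_mul]
        have h1 : ((Finset.univ.filter (Q k)).card : ℝ) ≤ 2 ^ (c - k) := by exact_mod_cast h k hk
        calc ((Finset.univ.filter (Q k)).card : ℝ) * 2 ^ k ≤ 2 ^ (c - k) * 2 ^ k := by gcongr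
          _ = 2 ^ c := by rw [← pow_add, Nat.sub_add_cancel (hMc k hk)]
    _ = M * 2 ^ c := by rw [Finset.sum_const, Finset.card_range, nsmul_eq_mul]

/-- prepend a letter different from the first one -/
def Bst (X : ℕ → Bool) : ℕ → Bool := fun i => if i = 0 then !(X 0) else X (i - 1)

open Classical in
/-- the nontrivial part of the leading number of `X`, `X` -/
noncomputable def oo (m : ℕ) (X : ℕ → Bool) : ℝ :=
  ∑ k ∈ Finset.range (m + 1), if lf (m + 2) (k + 1) X X then (2 : ℝ) ^ k else 0

open Classical in
/-- the nontrivial part of the leading number of `X`, `X` without the last letter -/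
noncomputable def op (m : ℕ) (X : ℕ → Bool) : ℝ :=
  ∑ k ∈ Finset.range m, if lf (m + 1) (k + 1) X X then (2 : ℝ) ^ k else 0

theorem oo_nonneg (m : ℕ) (X : ℕ → Bool) : 0 ≤ oo m X := by
  unfold oo
  apply Finset.sum_nonneg
  intro k _
  split_ifs <;> positivity

theorem op_nonneg (m : ℕ) (X : ℕ → Bool) : 0 ≤ op m X := by
  unfold op
  apply Finset.sum_nonneg
  intro k _
  split_ifs <;> positivity

theorem op_le (m : ℕ) (X : ℕ → Bool) : op m X ≤ 2 ^ m - 1 := by
  unfold op
  rw [← sum_pow_two]
  apply Finset.sum_le_sum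
  intro k _
  split_ifs
  · exact le_rfl
  · positivity

theorem con_eq (m : ℕ) (X : ℕ → Bool) : con (m + 2) X X = 2 ^ (m + 1) + oo m X := by
  classical
  unfold con oo
  rw [Finset.sum_range_succ]
  have h : lf (m + 2) (m + 1 + 1) X X := by
    intro i hi
    rw [show m + 2 - (m + 1 + 1) + i = i by omega]
  rw [if_pos h, add_comm]

theorem con_upper (m : ℕ) {A B : ℕ → Bool} (hBA : ∃ i < m + 2, B i ≠ A i) :
    con (m + 2) B A ≤ 2 ^ m + op m A := by
  classical
  have hf : ¬ lf (m + 2) (m + 1 + 1) B A := by
    intro hh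
    obtain ⟨i, hi, hne⟩ := hBA
    apply hne
    have := hh i hi
    rwa [show m + 2 - (m + 1 + 1) + i = i by omega] at this
  unfold con
  rw [Finset.sum_range_succ, if_neg hf, add_zero, Finset.sum_range_succ]
  by_cases h : lf (m + 2) (m + 1) B A
  · rw [if_pos h, add_comm]
    unfold op
    gcongr with k hk
    rw [Finset.mem_range] at hk
    by_cases h1 : lf (m + 2) (k + 1) B A
    · have h2 : lf (m + 1) (k + 1) A A := by
        intro i hi
        rw [← h1 i hi, ← h (m + 1 - (k + 1) + i) (by omega)]
        congr 1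
        omega
      rw [if_pos h1, if_pos h2]
    · rw [if_neg h1]
      split_ifs <;> positivity
  · rw [if_neg h, add_zero]
    have h1 : ∑ k ∈ Finset.range m, (if lf (m + 2) (k + 1) B A then (2 : ℝ) ^ k else 0) ≤
        2 ^ m - 1 := by
      rw [← sum_pow_two]
      apply Finset.sum_le_sum
      intro k _
      split_ifs
      · exact le_rfl
      · positivity
    have := op_nonneg m A
    linarith

/-- the upper bound for the winning probability -/
theorem upper (m : ℕ) {A B : ℕ → Bool} (hBA : ∃ i < m + 2, B i ≠ A i) :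
    tosses.real {ω | ∃ t, occ (m + 2) B ω t ∧ ∀ s ≤ t, ¬ occ (m + 2) A ω s} ≤
      2 / 3 + (oo m A + 2 * op m A) / (6 * 2 ^ m) := by
  have hAB : ∃ i < m + 2, A i ≠ B i := by
    obtain ⟨i, hi, h⟩ := hBA
    exact ⟨i, hi, h.symm⟩
  rw [conway (by omega) hAB]
  have hN : (1 : ℝ) ≤ 2 ^ m := one_le_pow₀ (by norm_num)
  have h1 := con_eq m A
  have h2 := con_eq m B
  have h3 := con_upper m hBA
  have h4 := con_ne (n := m + 2) (by omega) hAB
  have h5 : 0 ≤ con (m + 2) A B := con_nonneg A B
  have h6 := oo_nonneg m A
  have h7 := oo_nonneg m B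
  have h8 := op_nonneg m A
  have h9 := op_le m A
  have hp : (2 : ℝ) ^ (m + 1) = 2 * 2 ^ m := by rw [pow_succ]; ring
  rw [show m + 2 - 1 = m + 1 by omega] at h4
  rw [hp] at h1 h2 h4
  set N : ℝ := 2 ^ m with hNdef
  set x := con (m + 2) A A - con (m + 2) A B
  set y := con (m + 2) B B - con (m + 2) B A
  have hx : x ≤ 2 * N + oo m A := by simp only [x]; linarith
  have hx0 : 1 ≤ x := by simp only [x]; linarith
  have hy : N - op m A ≤ y := by simp only [y]; linarith
  have hY : 1 ≤ N - op m A := by linarith
  have e1 : x / (x + y) ≤ (2 * N + oo m A) / ((2 * N + oo m A) + (N - op m A)) := by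
    rw [div_le_div_iff₀ (by linarith) (by linarith)]
    have : x * (N - op m A) ≤ (2 * N + oo m A) * y :=
      mul_le_mul hx hy (by linarith) (by linarith)
    nlinarith
  have e2 : (2 * N + oo m A) / ((2 * N + oo m A) + (N - op m A)) =
      2 / 3 + (oo m A + 2 * op m A) / (3 * ((2 * N + oo m A) + (N - op m A))) := by
    have : (2 * N + oo m A) + (N - op m A) ≠ 0 := by linarith
    field_simp
    ring
  have e3 : (oo m A + 2 * op m A) / (3 * ((2 * N + oo m A) + (N - op m A))) ≤
      (oo m A + 2 * op m A) / (6 * N) := by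
    apply div_le_div_of_nonneg_left (by linarith) (by linarith) (by linarith)
  linarith

open Classical in
/-- the leading number of `X` and its shift -/
noncomputable def oc (m : ℕ) (X : ℕ → Bool) : ℝ :=
  ∑ k ∈ Finset.range (m + 1), if lf (m + 2) (k + 1) X (Bst X) then (2 : ℝ) ^ k else 0

theorem oc_nonneg (m : ℕ) (X : ℕ → Bool) : 0 ≤ oc m X := by
  unfold oc
  apply Finset.sum_nonneg
  intro k _
  split_ifs <;> positivity

theorem Bst_ne (m : ℕ) (A : ℕ → Bool) : ∃ i < m + 2, A i ≠ Bst A i :=
  ⟨0, by omega, by simp [Bst]⟩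

/-- the lower bound for the winning probability of the shifted string -/
theorem lower (m : ℕ) (A : ℕ → Bool) :
    2 / 3 - (oc m A + 2 * oo m (Bst A)) / (3 * 2 ^ m) ≤
    tosses.real {ω | ∃ t, occ (m + 2) (Bst A) ω t ∧ ∀ s ≤ t, ¬ occ (m + 2) A ω s} := by
  classical
  have hAB := Bst_ne m A
  rw [conway (by omega) hAB]
  have hN : (1 : ℝ) ≤ 2 ^ m := one_le_pow₀ (by norm_num)
  have h1 := con_eq m A
  have h2 := con_eq m (Bst A)
  have h4 := con_ne (n := m + 2) (by omega) hAB
  have h6 := oo_nonneg m A
  have h7 := oo_nonneg m (Bst A)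
  have h8 : con (m + 2) A (Bst A) = oc m A := by
    unfold con oc
    rw [Finset.sum_range_succ]
    have : ¬ lf (m + 2) (m + 1 + 1) A (Bst A) := by
      intro hh
      have := hh 0 (by omega)
      rw [show m + 2 - (m + 1 + 1) + 0 = 0 by omega] at this
      simp [Bst] at this
    rw [if_neg this, add_zero]
  have h9 : (2 : ℝ) ^ m ≤ con (m + 2) (Bst A) A := by
    unfold con
    have h : lf (m + 2) (m + 1) (Bst A) A := by
      intro i hi
      rw [show m + 2 - (m + 1) + i = i + 1 by omega]
      simp [Bst]
    have := Finset.single_le_sum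
      (f := fun k => if lf (m + 2) (k + 1) (Bst A) A then (2 : ℝ) ^ k else 0)
      (s := Finset.range (m + 2)) (fun k _ => by split_ifs <;> positivity)
      (Finset.mem_range.2 (show m < m + 2 by omega))
    simp only [if_pos h] at this
    exact this
  have h10 := con_ne (n := m + 2) (X := Bst A) (Y := A) (by omega) ⟨0, by omega, by simp [Bst]⟩
  have h11 := oc_nonneg m A
  have hp : (2 : ℝ) ^ (m + 1) = 2 * 2 ^ m := by rw [pow_succ]; ring
  rw [show m + 2 - 1 = m + 1 by omega] at h4 h10
  rw [h8] at h4 ⊢
  rw [hp] at h1 h2 h4 h10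
  set N : ℝ := 2 ^ m with hNdef
  set x := con (m + 2) A A - oc m A
  set y := con (m + 2) (Bst A) (Bst A) - con (m + 2) (Bst A) A
  have hx : 2 * N - oc m A ≤ x := by simp only [x]; linarith
  have hX : 1 ≤ 2 * N - oc m A := by linarith
  have hy : y ≤ N + oo m (Bst A) := by simp only [y]; linarith
  have hy0 : 0 ≤ y := by simp only [y]; linarith
  have e1 : (2 * N - oc m A) / ((2 * N - oc m A) + (N + oo m (Bst A))) ≤ x / (x + y) := by
    rw [div_le_div_iff₀ (by linarith) (by linarith)]
    have : (2 * N - oc m A) * y ≤ x * (N + oo m (Bst A)) :=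
      mul_le_mul hx hy hy0 (by linarith)
    nlinarith
  have e2 : (2 * N - oc m A) / ((2 * N - oc m A) + (N + oo m (Bst A))) =
      2 / 3 - (oc m A + 2 * oo m (Bst A)) /
        (3 * ((2 * N - oc m A) + (N + oo m (Bst A)))) := by
    have : (2 * N - oc m A) + (N + oo m (Bst A)) ≠ 0 := by linarith
    field_simp
    ring
  have e3 : (oc m A + 2 * oo m (Bst A)) / (3 * ((2 * N - oc m A) + (N + oo m (Bst A)))) ≤
      (oc m A + 2 * oo m (Bst A)) / (3 * N) := by
    apply div_le_div_of_nonneg_left (by linarith) (by linarith) (by linarith)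
  linarith

/-! ### The sums -/

theorem S1 (m : ℕ) : ∑ A : Fin (m + 2) → Bool, oo m (ex A) ≤ (m + 1) * 2 ^ (m + 1) := by
  classical
  have := sum_bound (n := m + 2) (M := m + 1) (c := m + 1)
    (fun k A => lf (m + 2) (k + 1) (ex A) (ex A)) (fun k hk => by omega) (by
      intro k hk
      apply count_le (m + 1 - k)
      intro A hA A' hA' h
      rw [Finset.mem_filter] at hA hA'
      apply ex_ext
      intro i
      induction i using Nat.strong_induction_on with
      | _ i ih =>
      intro hi
      by_cases h1 : i < m + 1 - k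
      · exact h i h1
      · have e1 := hA.2 (i - (m + 1 - k)) (by omega)
        have e2 := hA'.2 (i - (m + 1 - k)) (by omega)
        rw [show m + 2 - (k + 1) + (i - (m + 1 - k)) = i by omega] at e1 e2
        rw [e1, e2]
        exact ih _ (by omega) (by omega))
  unfold oo
  push_cast at this
  exact this

theorem S2 (m : ℕ) : ∑ A : Fin (m + 2) → Bool, op m (ex A) ≤ m * 2 ^ (m + 1) := by
  classical
  have := sum_bound (n := m + 2) (M := m) (c := m + 1)
    (fun k A => lf (m + 1) (k + 1) (ex A) (ex A)) (fun k hk => by omega) (by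
      intro k hk
      rw [show m + 1 - k = m - k + 1 by omega]
      apply count_le' (m - k)
      intro A hA A' hA' h hl
      rw [Finset.mem_filter] at hA hA'
      apply ex_ext
      intro i
      induction i using Nat.strong_induction_on with
      | _ i ih =>
      intro hi
      by_cases h1 : i < m - k
      · exact h i h1
      · by_cases h2 : i = m + 1
        · rw [h2]; exact hl
        · have e1 := hA.2 (i - (m - k)) (by omega)
          have e2 := hA'.2 (i - (m - k)) (by omega)
          rw [show m + 1 - (k + 1) + (i - (m - k)) = i by omega] at e1 e2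
          rw [e1, e2]
          exact ih _ (by omega) (by omega))
  unfold op
  exact this

theorem S3 (m : ℕ) : ∑ A : Fin (m + 2) → Bool, oc m (ex A) ≤ (m + 1) * 2 ^ (m + 1) := by
  classical
  have := sum_bound (n := m + 2) (M := m + 1) (c := m + 1)
    (fun k A => lf (m + 2) (k + 1) (ex A) (Bst (ex A))) (fun k hk => by omega) (by
      intro k hk
      apply count_le (m + 1 - k)
      intro A hA A' hA' h
      rw [Finset.mem_filter] at hA hA'
      apply ex_ext
      intro i
      induction i using Nat.strong_induction_on with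
      | _ i ih =>
      intro hi
      by_cases h1 : i < m + 1 - k
      · exact h i h1
      · have e1 := hA.2 (i - (m + 1 - k)) (by omega)
        have e2 := hA'.2 (i - (m + 1 - k)) (by omega)
        rw [show m + 2 - (k + 1) + (i - (m + 1 - k)) = i by omega] at e1 e2
        rw [e1, e2]
        unfold Bst
        split_ifs with h3
        · rw [ih 0 (by omega) (by omega)]
        · exact ih _ (by omega) (by omega))
  unfold oc
  push_cast at this
  exact this

theorem S4 (m : ℕ) : ∑ A : Fin (m + 2) → Bool, oo m (Bst (ex A)) ≤ (m + 1) * 2 ^ (m + 1) := by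
  classical
  have := sum_bound (n := m + 2) (M := m + 1) (c := m + 1)
    (fun k A => lf (m + 2) (k + 1) (Bst (ex A)) (Bst (ex A))) (fun k hk => by omega) (by
      intro k hk
      rw [show m + 1 - k = m - k + 1 by omega]
      apply count_le' (m - k)
      intro A hA A' hA' h hl
      rw [Finset.mem_filter] at hA hA'
      apply ex_ext
      intro i
      induction i using Nat.strong_induction_on with
      | _ i ih =>
      intro hi
      by_cases h1 : i < m - k
      · exact h i h1
      · by_cases h2 : i = m + 1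
        · rw [h2]; exact hl
        · have e1 := hA.2 (i - (m - k)) (by omega)
          have e2 := hA'.2 (i - (m - k)) (by omega)
          rw [show m + 2 - (k + 1) + (i - (m - k)) = i + 1 by omega] at e1 e2
          have e3 : ∀ X : ℕ → Bool, Bst X (i + 1) = X i := by intro X; simp [Bst]
          rw [e3] at e1 e2
          by_cases h0 : m - k = 0
          · exfalso
            have h5 := hA.2 0 (by omega)
            rw [show m + 2 - (k + 1) + 0 = 0 + 1 by omega] at h5
            simp [Bst] at h5
          · rw [e1, e2]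
            unfold Bst
            split_ifs with h3
            · rw [ih 0 (by omega) (by omega)]
            · exact ih _ (by omega) (by omega))
  unfold oo
  push_cast at this
  exact this

end Pool.Agent.R660.PA
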